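import Pool.Agent.H66.BP.Targets

/-!
Module HTK: support functions of a strip.
-/

set_option autoImplicit false

open MeasureTheory Set Filter Topology Metric
open Pool.Agent.H66.BP
open scoped Real ENNReal NNReal

namespace Pool.Agent.H90.BP

theorem HTK_proof : T_HTK := by
  intro S w
  have hne : (Icc S.a S.b).Nonempty := nonempty_Icc.2 S.hab.le
  have cT : ContinuousOn (fun x => S.T x + w * x) (Icc S.a S.b) := by
    have := S.contT
    fun_prop
  have cB : ContinuousOn (fun x => S.B x + w * x) (Icc S.a S.b) := by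
    have := S.contB
    fun_prop
  have bT := (isCompact_Icc.image_of_continuousOn cT).bddAbove
  have bB := (isCompact_Icc.image_of_continuousOn cB).bddBelow
  have hTle : ∀ x ∈ Icc S.a S.b, S.T x + w * x ≤ S.hT w := fun x hx =>
    le_csSup bT ⟨x, hx, rfl⟩
  have hBle : ∀ x ∈ Icc S.a S.b, S.gB w ≤ S.B x + w * x := fun x hx =>
    csInf_le bB ⟨x, hx, rfl⟩
  -- a point of the body
  have hmem : ∀ x ∈ Icc S.a S.b, ∀ t, S.B x ≤ t → t ≤ S.T x → (!₂[t, x] : E) ∈ S.set := by
    intro x hx t h1 h2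
    refine ⟨by simpa using hx, by simpa using h1, by simpa using h2⟩
  refine ⟨?_, ?_, ?_⟩
  · unfold hK
    have hub : ∀ v ∈ (fun y : E => (1, w).1 * y 0 + (1, w).2 * y 1) '' S.set, v ≤ S.hT w := by
      rintro v ⟨y, ⟨h1, h2, h3⟩, rfl⟩
      have := hTle (y 1) h1
      simp only [one_mul]
      linarith
    apply le_antisymm
    · apply csSup_le (hne.image _)
      rintro v ⟨x, hx, rfl⟩
      apply le_csSup ⟨S.hT w, hub⟩
      refine ⟨!₂[S.T x, x], hmem x hx _ (S.le x hx) le_rfl, ?_⟩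
      simp
    · obtain ⟨x, hx⟩ := hne
      exact csSup_le ⟨_, _, hmem x hx _ (S.le x hx) le_rfl, rfl⟩ hub
  · unfold hK
    have hub : ∀ v ∈ (fun y : E => (-1, -w).1 * y 0 + (-1, -w).2 * y 1) '' S.set,
        v ≤ - S.gB w := by
      rintro v ⟨y, ⟨h1, h2, h3⟩, rfl⟩
      have := hBle (y 1) h1
      simp only [neg_mul, one_mul]
      linarith
    apply le_antisymm
    · rw [le_neg]
      apply csSup_le
      · obtain ⟨x, hx⟩ := hne
        exact ⟨_, _, hmem x hx _ (S.le x hx) le_rfl, rfl⟩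
      · exact hub
    · apply le_csInf (hne.image _)
      rintro v ⟨x, hx, rfl⟩
      rw [neg_le]
      apply le_csSup ⟨_, hub⟩
      refine ⟨!₂[S.B x, x], hmem x hx _ le_rfl (S.le x hx), ?_⟩
      simp
      ring
  · have hx : (S.a + S.b) / 2 ∈ Ioo S.a S.b := ⟨by linarith [S.hab], by linarith [S.hab]⟩
    have hx' := Ioo_subset_Icc_self hx
    have h1 := hTle _ hx'
    have h2 := hBle _ hx'
    have h3 := S.lt _ hx
    linarith

end Pool.Agent.H90.BP
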