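import Pool.Agent.H66.BP.Targets

/-!
Module LC: second mean value inequality.
-/

set_option autoImplicit false

open MeasureTheory Set Filter Topology Metric
open Pool.Agent.H66.BP
open scoped Real ENNReal NNReal

namespace Pool.Agent.H90.BP

/-- integrals over intervals (order connected sets) -/
theorem norm_integral_ordConnected_le (α β A : ℝ) (φ : ℝ → ℂ) (h0 : 0 ≤ A)
    (hA : ∀ x ∈ Icc α β, ∀ y ∈ Icc α β, x ≤ y → ‖∫ u in x..y, φ u‖ ≤ A) (L : Set ℝ)
    (hL : L ⊆ Ioo α β) (hc : L.OrdConnected) : ‖∫ u in L, φ u‖ ≤ A := by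
  rcases L.eq_empty_or_nonempty with h | h
  · rw [h]
    simpa using h0
  have hba : BddAbove L := ⟨β, fun x hx => (hL hx).2.le⟩
  have hbb : BddBelow L := ⟨α, fun x hx => (hL hx).1.le⟩
  set c := sInf L with hcd
  set d := sSup L with hdd
  have h1 : L ⊆ Icc c d := fun x hx => ⟨csInf_le hbb hx, le_csSup hba hx⟩
  have h2 : Ioo c d ⊆ L := by
    intro x hx
    obtain ⟨p, hp, hpx⟩ := exists_lt_of_csInf_lt h hx.1
    obtain ⟨q, hq, hqx⟩ := exists_lt_of_lt_csSup h hx.2
    exact hc.out hp hq ⟨hpx.le, hqx.le⟩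
  have hcdle : c ≤ d := by
    obtain ⟨x, hx⟩ := h
    exact (h1 hx).1.trans (h1 hx).2
  have hcm : c ∈ Icc α β := by
    refine ⟨le_csInf h fun x hx => (hL hx).1.le, ?_⟩
    obtain ⟨x, hx⟩ := h
    exact (h1 hx).1.trans (hL hx).2.le
  have hdm : d ∈ Icc α β := by
    refine ⟨?_, csSup_le h fun x hx => (hL hx).2.le⟩
    obtain ⟨x, hx⟩ := h
    exact (hL hx).1.le.trans (h1 hx).2
  have h3 : L =ᵐ[volume] Ioc c d := by
    refine EventuallyLE.antisymm ?_ ?_
    · exact (LE.le.eventuallyLE h1).trans Ioc_ae_eq_Icc.symm.le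
    · exact Ioo_ae_eq_Ioc.symm.le.trans (LE.le.eventuallyLE h2)
  rw [setIntegral_congr_set h3, ← intervalIntegral.integral_of_le hcdle]
  exact hA c hcm d hdm hcdle

theorem level_integral (M t : ℝ) (h0 : 0 ≤ t) (hM : t ≤ M) :
    ∫ y in Ioo 0 M, (if y < t then (1 : ℝ) else 0) = t := by
  have h1 : (fun y : ℝ => if y < t then (1 : ℝ) else 0) = (Iio t).indicator fun _ => (1 : ℝ) := by
    ext y
    simp [indicator_apply]
  rw [h1, setIntegral_indicator measurableSet_Iio, setIntegral_const, smul_eq_mul, mul_one]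
  have h2 : Ioo 0 M ∩ Iio t = Ioo 0 t := by
    ext y
    simp only [mem_inter_iff, mem_Ioo, mem_Iio]
    constructor
    · rintro ⟨⟨h1, -⟩, h2⟩
      exact ⟨h1, h2⟩
    · rintro ⟨h1, h2⟩
      exact ⟨⟨h1, h2.trans_le hM⟩, h2⟩
  rw [h2, measureReal_def, Real.volume_Ioo, sub_zero, ENNReal.toReal_ofReal h0]

theorem LC_proof : T_LC := by
  intro α β M A φ g hαβ hM hφ hA hg hb
  have hA0 : 0 ≤ A := by
    have h1 := hA α (left_mem_Icc.2 hαβ) α (left_mem_Icc.2 hαβ) le_rfl
    exact (norm_nonneg _).trans h1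
  -- a measurable version of `g`
  obtain ⟨G, hGm, hGe, hGc⟩ : ∃ G : ℝ → ℝ, Measurable G ∧ EqOn g G (Ioo α β) ∧
      ∀ y, (Ioo α β ∩ {u | y < G u}).OrdConnected := by
    have hbb : BddBelow (g '' Ioo α β) := ⟨0, by rintro _ ⟨x, hx, rfl⟩; exact (hb x hx).1⟩
    have hba : BddAbove (g '' Ioo α β) := ⟨M, by rintro _ ⟨x, hx, rfl⟩; exact (hb x hx).2⟩
    rcases hg with hg | hg
    · obtain ⟨G, hG1, hG2⟩ := hg.exists_monotone_extension hbb hba
      refine ⟨G, hG1.measurable, hG2, fun y => ?_⟩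
      refine ordConnected_Ioo.inter ⟨?_⟩
      intro a ha b hb' c hc
      exact lt_of_lt_of_le ha (hG1 hc.1)
    · obtain ⟨G, hG1, hG2⟩ := hg.exists_antitone_extension hbb hba
      refine ⟨G, hG1.measurable, hG2, fun y => ?_⟩
      refine ordConnected_Ioo.inter ⟨?_⟩
      intro a ha b hb' c hc
      exact lt_of_lt_of_le hb' (hG1 hc.2)
  have hφi : Integrable φ (volume.restrict (Ioo α β)) := by
    have h1 := hφ.1
    exact IntegrableOn.mono_set h1 Ioo_subset_Ioc_self
  have h1 : ∫ u in α..β, φ u * (g u : ℂ) = ∫ u in Ioo α β, φ u * (g u : ℂ) := by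
    rw [intervalIntegral.integral_of_le hαβ, setIntegral_congr_set Ioo_ae_eq_Ioc]
  have h2 : ∀ u ∈ Ioo α β, φ u * (g u : ℂ) =
      ∫ y in Ioo 0 M, (if y < G u then φ u else 0) := by
    intro u hu
    have h3 := level_integral M (g u) (hb u hu).1 (hb u hu).2
    have h4 : ∀ y : ℝ, (if y < G u then φ u else 0) =
        φ u * (((if y < g u then (1 : ℝ) else 0) : ℝ) : ℂ) := by
      intro y
      rw [← hGe hu]
      split_ifs <;> simp
    simp only [h4]
    rw [integral_const_mul, integral_complex_ofReal, h3]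
  rw [h1, setIntegral_congr_fun measurableSet_Ioo h2]
  have hint : Integrable (Function.uncurry fun u y : ℝ => if y < G u then φ u else 0)
      ((volume.restrict (Ioo α β)).prod (volume.restrict (Ioo 0 M))) := by
    have h5 : Integrable (fun z : ℝ × ℝ => φ z.1 * (1 : ℂ))
        ((volume.restrict (Ioo α β)).prod (volume.restrict (Ioo 0 M))) :=
      hφi.mul_prod (integrable_const 1)
    have h6 : MeasurableSet {z : ℝ × ℝ | z.2 < G z.1} :=
      measurableSet_lt measurable_snd (hGm.comp measurable_fst)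
    have h7 := h5.indicator h6
    refine h7.congr (Eventually.of_forall fun z => ?_)
    simp only [indicator_apply, mem_ofPred_eq, Function.uncurry, mul_one]
  rw [integral_integral_swap hint]
  have h8 : ∀ y, ∫ u in Ioo α β, (if y < G u then φ u else 0) =
      ∫ u in Ioo α β ∩ {u | y < G u}, φ u := by
    intro y
    have h9 : MeasurableSet {u | y < G u} := measurableSet_lt measurable_const hGm
    rw [← setIntegral_indicator h9]
    refine integral_congr_ae (Eventually.of_forall fun u => ?_)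
    simp only [indicator_apply, mem_ofPred_eq]
  simp only [h8]
  have h10 : ∀ y, ‖∫ u in Ioo α β ∩ {u | y < G u}, φ u‖ ≤ A := fun y =>
    norm_integral_ordConnected_le α β A φ hA0 hA _ inter_subset_left (hGc y)
  have h11 := norm_setIntegral_le_of_norm_le_const (μ := volume) (s := Ioo 0 M) (C := A)
    (f := fun y => ∫ u in Ioo α β ∩ {u | y < G u}, φ u) (by
      rw [Real.volume_Ioo]
      exact ENNReal.ofReal_lt_top) (fun y _ => h10 y)
  rw [measureReal_def, Real.volume_Ioo, sub_zero, ENNReal.toReal_ofReal hM] at h11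
  rw [mul_comm M A]
  exact h11

end Pool.Agent.H90.BP
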