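import Pool.Agent.H66.BP.Targets

/-!
Module ROT: strips in arbitrary directions.
-/

set_option autoImplicit false

open MeasureTheory Set Filter Topology Metric
open Pool.Agent.H66.BP
open scoped Real ENNReal NNReal

namespace Pool.Agent.H90.BP

/-- rotation which maps the coordinate `v.1 y0 + v.2 y1` to the second coordinate -/
noncomputable def rotv (v : ℝ × ℝ) (hv : v.1 ^ 2 + v.2 ^ 2 = 1) : E ≃ₗᵢ[ℝ] E where
  toFun y := !₂[v.2 * y 0 - v.1 * y 1, v.1 * y 0 + v.2 * y 1]
  invFun z := !₂[v.2 * z 0 + v.1 * z 1, -v.1 * z 0 + v.2 * z 1]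
  map_add' y z := by
    ext i
    fin_cases i
    · simp
      ring
    · simp
      ring
  map_smul' c y := by
    ext i
    fin_cases i
    · simp
      ring
    · simp
      ring
  left_inv y := by
    ext i
    fin_cases i
    · simp
      linear_combination (y 0) * hv
    · simp
      linear_combination (y 1) * hv
  right_inv z := by
    ext i
    fin_cases i
    · simp
      linear_combination (z 0) * hv
    · simp
      linear_combination (z 1) * hv
  norm_map' y := by
    simp only [EuclideanSpace.norm_eq, Fin.sum_univ_two, Real.norm_eq_abs, sq_abs]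
    congr 1
    simp
    linear_combination ((y 0) ^ 2 + (y 1) ^ 2) * hv

theorem rotv_zero (v : ℝ × ℝ) (hv : v.1 ^ 2 + v.2 ^ 2 = 1) (y : E) :
    (rotv v hv y) 0 = v.2 * y 0 - v.1 * y 1 := by
  simp [rotv]

theorem rotv_one (v : ℝ × ℝ) (hv : v.1 ^ 2 + v.2 ^ 2 = 1) (y : E) :
    (rotv v hv y) 1 = v.1 * y 0 + v.2 * y 1 := by
  simp [rotv]

theorem bdm_image (K : Set E) (R : E ≃ₗᵢ[ℝ] E) : bdm (R '' K) = (bdm K).map R := by
  unfold bdm
  have h1 : frontier (R '' K) = R '' frontier K := by
    have := R.toHomeomorph.image_frontier K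
    exact this.symm
  have h2 : (μH[1] : Measure E).map R = μH[1] := R.toIsometryEquiv.map_hausdorffMeasure 1
  have hm : Measurable R := R.continuous.measurable
  have hF : MeasurableSet (R '' frontier K) := by
    rw [← h1]
    exact isClosed_frontier.measurableSet
  rw [h1]
  conv_lhs => rw [← h2]
  rw [Measure.restrict_map hm hF, preimage_image_eq _ R.injective]

theorem isBody_image {K : Set E} (hK : IsBody K) (R : E ≃ₗᵢ[ℝ] E) : IsBody (R '' K) where
  convex := hK.convex.is_linear_image R.toLinearEquiv.toLinearMap.isLinear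
  compact := hK.compact.image R.continuous
  nonempty := by
    have := R.toHomeomorph.image_interior K
    have h1 : interior (R '' K) = R '' interior K := this.symm
    rw [h1]
    exact hK.nonempty.image _

theorem ROT_proof (hstrip : T_STRIP) (hrep : T_REP) : T_ROT := by
  intro K hK
  obtain ⟨c, hc⟩ := hK.nonempty
  obtain ⟨ε, hε, hball⟩ := Metric.isOpen_iff.1 isOpen_interior c hc
  refine ⟨ε / 2, by positivity, ?_⟩
  intro v hv
  set R := rotv v hv with hR
  obtain ⟨S, hS⟩ := hstrip _ (isBody_image hK R)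
  refine ⟨S, ?_, ?_, ?_, ?_, ?_⟩
  · intro l
    rw [← (hrep S).2, hS]
    unfold FK
    rw [bdm_image]
    have hme : MeasurableEmbedding (R : E → E) := R.toHomeomorph.measurableEmbedding
    rw [hme.integral_map]
    refine integral_congr_ae (Eventually.of_forall fun y => ?_)
    have h1 : (R y) 1 = v.1 * y 0 + v.2 * y 1 := rotv_one v hv y
    simp only [h1]
    congr 1
    simp only [cx, Prod.smul_mk, smul_eq_mul]
    push_cast
    ring
  · -- the top height
    have hb : S.b ∈ Icc S.a S.b := ⟨S.hab.le, le_rfl⟩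
    have hmem : (!₂[S.T S.b, S.b] : E) ∈ S.set :=
      ⟨by simpa using S.hab.le, by simpa using S.le _ hb, by simp⟩
    rw [hS] at hmem
    obtain ⟨y, hy, hye⟩ := hmem
    have hy1 : v.1 * y 0 + v.2 * y 1 = S.b := by
      rw [← rotv_one v hv y, ← hR, hye]
      simp
    unfold Pool.Agent.H66.BP.hK
    symm
    refine IsGreatest.csSup_eq ⟨⟨y, hy, hy1⟩, ?_⟩
    rintro t ⟨z, hz, rfl⟩
    have hz' : R z ∈ S.set := by
      rw [hS]
      exact ⟨z, hz, rfl⟩
    have h1 := hz'.1.2
    rw [hR, rotv_one v hv z] at h1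
    exact h1
  · have ha : S.a ∈ Icc S.a S.b := ⟨le_rfl, S.hab.le⟩
    have hmem : (!₂[S.T S.a, S.a] : E) ∈ S.set :=
      ⟨by simpa using S.hab.le, by simpa using S.le _ ha, by simp⟩
    rw [hS] at hmem
    obtain ⟨y, hy, hye⟩ := hmem
    have hy1 : v.1 * y 0 + v.2 * y 1 = S.a := by
      rw [← rotv_one v hv y, ← hR, hye]
      simp
    have h2 : Pool.Agent.H66.BP.hK K (-v) = - S.a := by
      unfold Pool.Agent.H66.BP.hK
      refine IsGreatest.csSup_eq ⟨⟨y, hy, ?_⟩, ?_⟩
      · simp only [Prod.fst_neg, Prod.snd_neg]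
        linarith
      · rintro t ⟨z, hz, rfl⟩
        have hz' : R z ∈ S.set := by
          rw [hS]
          exact ⟨z, hz, rfl⟩
        have h1 := hz'.1.1
        rw [hR, rotv_one v hv z] at h1
        simp only [Prod.fst_neg, Prod.snd_neg]
        linarith
    rw [h2, neg_neg]
  · -- the chord at the height of the centre
    have key : ∀ w : E, ‖w‖ < ε → R c + w ∈ S.set := by
      intro w hw
      have h1 : c + R.symm w ∈ K := by
        apply interior_subset
        apply hball
        rw [mem_ball, dist_eq_norm, add_sub_cancel_left, R.symm.norm_map]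
        exact hw
      rw [hS]
      exact ⟨_, h1, by rw [map_add, R.apply_symm_apply]⟩
    have hn : ∀ t : ℝ, |t| < ε → ‖(!₂[t, 0] : E)‖ < ε := by
      intro t ht
      rw [EuclideanSpace.norm_eq]
      simpa [Fin.sum_univ_two, Real.sqrt_sq_eq_abs] using ht
    have h1 := key !₂[ε / 2, 0] (hn _ (by rw [abs_of_pos (by positivity)]; linarith))
    have h2 := key !₂[-(ε / 2), 0] (hn _ (by rw [abs_neg, abs_of_pos (by positivity)]; linarith))
    obtain ⟨h1a, h1b, h1c⟩ := h1
    obtain ⟨h2a, h2b, h2c⟩ := h2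
    have e1 : (R c + !₂[ε / 2, 0] : E) 1 = (R c) 1 := by simp
    have e2 : (R c + !₂[-(ε / 2), 0] : E) 1 = (R c) 1 := by simp
    have e3 : (R c + !₂[ε / 2, 0] : E) 0 = (R c) 0 + ε / 2 := by simp
    have e4 : (R c + !₂[-(ε / 2), 0] : E) 0 = (R c) 0 - ε / 2 := by simp; ring
    rw [e1] at h1a
    rw [e1, e3] at h1c
    rw [e2, e4] at h2b
    exact ⟨(R c) 1, h1a, by linarith⟩
  · have key : ∀ w : E, ‖w‖ < ε → R c + w ∈ S.set := by
      intro w hw
      have h1 : c + R.symm w ∈ K := by
        apply interior_subset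
        apply hball
        rw [mem_ball, dist_eq_norm, add_sub_cancel_left, R.symm.norm_map]
        exact hw
      rw [hS]
      exact ⟨_, h1, by rw [map_add, R.apply_symm_apply]⟩
    have hn : ∀ t : ℝ, |t| < ε → ‖(!₂[0, t] : E)‖ < ε := by
      intro t ht
      rw [EuclideanSpace.norm_eq]
      simpa [Fin.sum_univ_two, Real.sqrt_sq_eq_abs] using ht
    have h1 := (key !₂[0, ε / 2] (hn _ (by rw [abs_of_pos (by positivity)]; linarith))).1.2
    have h2 := (key !₂[0, -(ε / 2)] (hn _ (by
      rw [abs_neg, abs_of_pos (by positivity)]; linarith))).1.1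
    have e1 : (R c + !₂[0, ε / 2] : E) 1 = (R c) 1 + ε / 2 := by simp
    have e2 : (R c + !₂[0, -(ε / 2)] : E) 1 = (R c) 1 - ε / 2 := by simp; ring
    rw [e1] at h1
    rw [e2] at h2
    linarith

end Pool.Agent.H90.BP
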