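import Pool.Agent.H66.BP.Targets

/-!
Module TYP: typical points.
-/

set_option autoImplicit false

open MeasureTheory Set Filter Topology Metric
open Pool.Agent.H66.BP
open scoped Real ENNReal NNReal

namespace Pool.Agent.H90.BP

theorem dens_ae (m μ : Measure ℝ) [IsFiniteMeasure m] (hμ : μ ≤ m) :
    ∀ᵐ w ∂m, Dens m μ w (μ.rnDeriv m w).toReal := by
  have hfin : IsFiniteMeasure μ := isFiniteMeasure_of_le m hμ
  have hac : μ ≪ m := Measure.absolutelyContinuous_of_le hμ
  have hki : Integrable (fun x => (μ.rnDeriv m x).toReal) m := Measure.integrable_toReal_rnDeriv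
  filter_upwards [(Besicovitch.vitaliFamily m).ae_tendsto_average_norm_sub
    hki.locallyIntegrable] with w hw
  intro ε hε
  have h1 := hw.comp (Besicovitch.tendsto_filterAt m w)
  have h2 := h1.eventually (gt_mem_nhds hε)
  filter_upwards [h2] with r hr f hfm hf0 hf1 hfs
  simp only [Function.comp_apply] at hr
  set k : ℝ → ℝ := fun x => (μ.rnDeriv m x).toReal with hk
  have hfi : Integrable f m := by
    refine Integrable.of_bound hfm.aestronglyMeasurable 1 (Eventually.of_forall fun x => ?_)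
    rw [Real.norm_eq_abs, abs_of_nonneg (hf0 x)]
    exact hf1 x
  have hfk : Integrable (fun x => k x * f x) m := by
    refine Integrable.mono hki ?_ (Eventually.of_forall fun x => ?_)
    · exact hki.aestronglyMeasurable.mul hfm.aestronglyMeasurable
    · rw [norm_mul]
      have : ‖f x‖ ≤ 1 := by
        rw [Real.norm_eq_abs, abs_of_nonneg (hf0 x)]
        exact hf1 x
      nlinarith [norm_nonneg (k x), norm_nonneg (f x)]
  have e1 : ∫ x, f x ∂μ = ∫ x, k x * f x ∂m := by
    rw [← integral_rnDeriv_smul hac]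
    rfl
  have e2 : ∫ x, f x ∂μ - k w * ∫ x, f x ∂m = ∫ x, (k x - k w) * f x ∂m := by
    rw [e1, ← integral_const_mul, ← integral_sub hfk (hfi.const_mul _)]
    refine integral_congr_ae (Eventually.of_forall fun x => ?_)
    simp only
    ring
  have e3 : ∫ x, (k x - k w) * f x ∂m = ∫ x in closedBall w r, (k x - k w) * f x ∂m := by
    rw [setIntegral_eq_integral_of_forall_compl_eq_zero]
    intro x hx
    rw [hfs x hx, mul_zero]
  have hdi : Integrable (fun x => k x - k w) m := hki.sub (integrable_const _)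
  have e4 : |∫ x in closedBall w r, (k x - k w) * f x ∂m| ≤
      ∫ x in closedBall w r, ‖k x - k w‖ ∂m := by
    rw [← Real.norm_eq_abs]
    refine norm_integral_le_of_norm_le hdi.norm.integrableOn (Eventually.of_forall fun x => ?_)
    rw [norm_mul]
    have : ‖f x‖ ≤ 1 := by
      rw [Real.norm_eq_abs, abs_of_nonneg (hf0 x)]
      exact hf1 x
    nlinarith [norm_nonneg (k x - k w), norm_nonneg (f x)]
  have e5 : ∫ x in closedBall w r, ‖k x - k w‖ ∂m ≤ ε * (m (closedBall w r)).toReal := by
    by_cases h0 : m (closedBall w r) = 0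
    · rw [Measure.restrict_eq_zero.2 h0, integral_zero_measure, h0]
      simp
    · have hpos : 0 < m.real (closedBall w r) := by
        rw [measureReal_def]
        exact ENNReal.toReal_pos h0 (measure_ne_top _ _)
      rw [setAverage_eq, smul_eq_mul, inv_mul_lt_iff₀ hpos] at hr
      rw [mul_comm]
      exact hr.le
  rw [e2, e3]
  exact e4.trans e5

theorem dbl_ae (m : Measure ℝ) [IsFiniteMeasure m] : ∀ᵐ w ∂m, Dbl m w := by
  filter_upwards [Besicovitch.ae_tendsto_rnDeriv (volume : Measure ℝ) m,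
    Measure.rnDeriv_lt_top (volume : Measure ℝ) m] with w hw hfin
  set L := (volume : Measure ℝ).rnDeriv m w with hL
  -- lower bound for the mass of small balls
  obtain ⟨c, hc, hlow⟩ : ∃ c : ℝ, 0 < c ∧ ∀ᶠ r in 𝓝[>] (0 : ℝ),
      c * r ≤ (m (closedBall w r)).toReal := by
    have hK : 0 < L.toReal + 1 := by
      have := ENNReal.toReal_nonneg (a := L)
      linarith
    have h1 : L < ENNReal.ofReal (L.toReal + 1) := by
      rw [ENNReal.lt_ofReal_iff_toReal_lt hfin.ne]
      linarith
    refine ⟨2 / (L.toReal + 1), by positivity, ?_⟩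
    filter_upwards [hw.eventually (gt_mem_nhds h1), self_mem_nhdsWithin] with r hr hr0
    have hr0 : 0 < r := hr0
    have h2 := (ENNReal.div_le_iff_le_mul (Or.inr ENNReal.ofReal_ne_top)
      (Or.inl (measure_ne_top m _))).1 hr.le
    rw [Real.volume_closedBall] at h2
    have h3 := ENNReal.toReal_mono (ENNReal.mul_ne_top ENNReal.ofReal_ne_top
      (measure_ne_top m _)) h2
    rw [ENNReal.toReal_mul, ENNReal.toReal_ofReal hK.le,
      ENNReal.toReal_ofReal (by linarith : (0 : ℝ) ≤ 2 * r)] at h3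
    rw [div_mul_eq_mul_div, div_le_iff₀ hK, mul_comm _ (L.toReal + 1)]
    exact h3
  by_contra hcon
  unfold Dbl at hcon
  rw [not_frequently] at hcon
  obtain ⟨R0, hR0, hR⟩ := ((nhdsGT_basis (0 : ℝ)).eventually_iff).1 (hcon.and hlow)
  set g : ℝ → ℝ := fun r => (m (closedBall w r)).toReal with hg
  have hstep : ∀ t, 0 < t → t < R0 → g (t / 8) ≤ g t / 9 := by
    intro t ht ht'
    have h1 := (hR (x := t / 4) ⟨by positivity, by linarith⟩).1
    have h2 := (hR (x := t / 8) ⟨by positivity, by linarith⟩).2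
    have e1 : t / 4 / 2 = t / 8 := by ring
    have e2 : 4 * (t / 4) = t := by ring
    rw [e1, e2, not_and] at h1
    have h3 : 0 < (m (closedBall w (t / 8))).toReal := lt_of_lt_of_le (by positivity) h2
    have h4 := h1 h3
    rw [not_le] at h4
    simp only [hg]
    linarith
  have hind : ∀ j : ℕ, g (R0 / 2 / 8 ^ j) ≤ g (R0 / 2) / 9 ^ j := by
    intro j
    induction j with
    | zero => simp
    | succ j ih =>
      have h8 : (0 : ℝ) < 8 ^ j := by positivity
      have h81 : (1 : ℝ) ≤ 8 ^ j := one_le_pow₀ (by norm_num)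
      have h5 : R0 / 2 / 8 ^ j < R0 := by
        have : R0 / 2 / 8 ^ j ≤ R0 / 2 := div_le_self (by positivity) h81
        linarith
      have h6 := hstep (R0 / 2 / 8 ^ j) (by positivity) h5
      have e1 : R0 / 2 / 8 ^ (j + 1) = R0 / 2 / 8 ^ j / 8 := by
        rw [pow_succ]
        field_simp
      have e2 : g (R0 / 2) / 9 ^ (j + 1) = g (R0 / 2) / 9 ^ j / 9 := by
        rw [pow_succ]
        field_simp
      rw [e1, e2]
      linarith
  have hlow2 : ∀ j : ℕ, c * (R0 / 2) ≤ (8 / 9 : ℝ) ^ j * g (R0 / 2) := by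
    intro j
    have h8 : (0 : ℝ) < 8 ^ j := by positivity
    have h81 : (1 : ℝ) ≤ 8 ^ j := one_le_pow₀ (by norm_num)
    have h5 : R0 / 2 / 8 ^ j < R0 := by
      have : R0 / 2 / 8 ^ j ≤ R0 / 2 := div_le_self (by positivity) h81
      linarith
    have h6 := (hR (x := R0 / 2 / 8 ^ j) ⟨by positivity, h5⟩).2
    have h7 := h6.trans (hind j)
    have h9 : (0 : ℝ) < 9 ^ j := by positivity
    rw [div_pow, div_mul_eq_mul_div, le_div_iff₀ h9]
    rw [le_div_iff₀ h9] at h7
    have e1 : c * (R0 / 2 / 8 ^ j) * 9 ^ j = c * (R0 / 2) * 9 ^ j / 8 ^ j := by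
      field_simp
    rw [e1, div_le_iff₀ h8] at h7
    linarith
  have hlim : Tendsto (fun j : ℕ => (8 / 9 : ℝ) ^ j * g (R0 / 2)) atTop (𝓝 0) := by
    have := (tendsto_pow_atTop_nhds_zero_of_lt_one (r := (8 / 9 : ℝ)) (by norm_num)
      (by norm_num)).mul_const (g (R0 / 2))
    rwa [zero_mul] at this
  have h10 := ge_of_tendsto' hlim hlow2
  have h11 : 0 < c * (R0 / 2) := by positivity
  linarith

theorem TYP_proof : T_TYP := by
  intro m μ _ hμ
  exact ⟨dens_ae m μ hμ, dbl_ae m⟩

end Pool.Agent.H90.BP
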